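import Pool.Agent.H146Z.FuMain

set_option autoImplicit false

namespace Pool.Agent.Results.MP_27b523_gt.SmallKappa

open Pool.Agent.H146Z.Fu Set
open scoped Cardinal

/-- For a regular `κ ≤ max 𝔤 cov(M)`, a `κ`-fin-unbounded set `X` and a `T₁` space `Y` with the
gamma-property, the product `(X ∪ Fin) × Y` satisfies `S₁(Γ, Ω)`. -/
theorem result (κ : Cardinal.{0}) (hκ : κ.IsRegular) (hle : κ ≤ max gNum covM) (X : Set Cantor)
    (hX : FinUnbInt κ X) (Y : Type) [TopologicalSpace Y] [T1Space Y] (hY : GammaProp Y) :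
    S1GammaOmega (↥(X ∪ FinSets) × Y) := by
  have ho := omit_of_int hX
  have h0 := aleph0_lt hκ hX.1 hX.2.1 ho
  have hw := wg_of_gammaProp hY
  rw [prod_iff]
  refine main hκ h0 hw ho fun S _ hS => ?_
  rcases le_max_iff.1 hle with h | h
  · exact small_g hκ hX.1 hX.2.1 ho h hw (card_finset h0 hS)
  · exact small_cov hw ((card_finset h0 hS).trans_le h)

end Pool.Agent.Results.MP_27b523_gt.SmallKappa
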